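import Mathlib

set_option autoImplicit false

open Set Filter Topology

namespace Pool.Agent.Helper55.BurkeX

/-! ### The space `XX L S`: the compact space `L` with an infinite clopen discrete set
attached at each point of `S`. -/

/-- Underlying type of the space. -/
def XX (L : Type) (S : Set L) : Type := L ⊕ (S × ℕ)

variable {L : Type} {S : Set L}

/-- The point of `L`. -/
def pt (z : L) : XX L S := Sum.inl z

/-- The isolated point number `n` over `k ∈ S`. -/
def iso (k : S) (n : ℕ) : XX L S := Sum.inr (k, n)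

theorem pt_inj {z w : L} : (pt z : XX L S) = pt w ↔ z = w := Sum.inl_injective.eq_iff

theorem iso_inj {k k' : S} {n n' : ℕ} : (iso k n : XX L S) = iso k' n' ↔ k = k' ∧ n = n' :=
  (Sum.inr_injective.eq_iff (a := (k, n)) (b := (k', n'))).trans Prod.mk_inj

theorem pt_ne_iso {z : L} {k : S} {n : ℕ} : (pt z : XX L S) ≠ iso k n := Sum.inl_ne_inr

theorem iso_ne_pt {z : L} {k : S} {n : ℕ} : (iso k n : XX L S) ≠ pt z := Sum.inr_ne_inl

theorem XX.cases {p : XX L S → Prop} (h1 : ∀ z, p (pt z)) (h2 : ∀ k n, p (iso k n)) (x : XX L S) :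
    p x := by
  rcases x with z | ⟨k, n⟩
  · exact h1 z
  · exact h2 k n

/-- the projection -/
def proj : XX L S → L
  | Sum.inl z => z
  | Sum.inr (k, _) => k

@[simp] theorem proj_pt (z : L) : proj (pt z : XX L S) = z := rfl
@[simp] theorem proj_iso (k : S) (n : ℕ) : proj (iso k n : XX L S) = k := rfl

variable [TopologicalSpace L]

instance : TopologicalSpace (XX L S) where
  IsOpen U := ∀ z : L, pt z ∈ U → ∀ᶠ w in 𝓝 z, (pt w ∈ U ∧
    (w ≠ z → ∀ (h : w ∈ S) (n : ℕ), iso ⟨w, h⟩ n ∈ U))
  isOpen_univ := by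
    intro z _
    exact Eventually.of_forall fun w => ⟨trivial, fun _ _ _ => trivial⟩
  isOpen_inter := by
    intro U V hU hV z hz
    filter_upwards [hU z hz.1, hV z hz.2] with w h1 h2
    exact ⟨⟨h1.1, h2.1⟩, fun hw h n => ⟨h1.2 hw h n, h2.2 hw h n⟩⟩
  isOpen_sUnion := by
    rintro s hs z ⟨U, hU, hz⟩
    filter_upwards [hs U hU z hz] with w h1
    exact ⟨⟨U, hU, h1.1⟩, fun hw h n => ⟨U, hU, h1.2 hw h n⟩⟩

theorem isOpen_iff' {U : Set (XX L S)} : IsOpen U ↔ ∀ z : L, pt z ∈ U → ∀ᶠ w in 𝓝 z, (pt w ∈ U ∧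
    (w ≠ z → ∀ (h : w ∈ S) (n : ℕ), iso ⟨w, h⟩ n ∈ U)) := Iff.rfl

theorem continuous_pt : Continuous (pt : L → XX L S) := by
  refine ⟨fun U hU => ?_⟩
  rw [isOpen_iff_mem_nhds]
  intro z hz
  filter_upwards [hU z hz] with w hw
  exact hw.1

theorem continuous_proj : Continuous (proj : XX L S → L) := by
  refine ⟨fun V hV => ?_⟩
  intro z hz
  filter_upwards [hV.mem_nhds hz] with w hw
  exact ⟨hw, fun _ _ _ => hw⟩

/-- any set without points of `L` is open -/
theorem isOpen_of_no_pt {U : Set (XX L S)} (h : ∀ z, pt z ∉ U) : IsOpen U :=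
  fun z hz => absurd hz (h z)

/-- The set of all isolated points over points in a finite set `t` is closed,
and so is each of its subsets. -/
theorem isClosed_of_finite [T1Space L] {A : Set (XX L S)} (hA : ∀ z, pt z ∉ A) {t : Set L}
    (ht : t.Finite) (h : ∀ x ∈ A, proj x ∈ t) : IsClosed A := by
  rw [← isOpen_compl_iff]
  intro z _
  have : (t \ {z})ᶜ ∈ 𝓝 z := (ht.subset sdiff_subset).isClosed.isOpen_compl.mem_nhds (by simp)
  filter_upwards [this] with w hw
  refine ⟨hA w, fun hwz hS n hmem => hw ⟨h _ hmem, hwz⟩⟩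

theorem isOpen_iso (k : S) (n : ℕ) : IsOpen ({iso k n} : Set (XX L S)) :=
  isOpen_of_no_pt fun _ h => pt_ne_iso h

theorem isClosed_iso [T1Space L] (k : S) (n : ℕ) : IsClosed ({iso k n} : Set (XX L S)) := by
  refine isClosed_of_finite (fun z h => pt_ne_iso h) (finite_singleton (k : L)) ?_
  rintro x rfl
  rfl

theorem t2 [T2Space L] : T2Space (XX L S) := by
  have key : ∀ (k : S) (n : ℕ) (y : XX L S), iso k n ≠ y →
      ∃ u v : Set (XX L S), IsOpen u ∧ IsOpen v ∧ iso k n ∈ u ∧ y ∈ v ∧ Disjoint u v := by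
    intro k n y hy
    exact ⟨{iso k n}, {iso k n}ᶜ, isOpen_iso k n, (isClosed_iso k n).isOpen_compl, rfl,
      fun h => hy h.symm, disjoint_compl_right⟩
  refine ⟨fun x y hxy => ?_⟩
  induction x using XX.cases with
  | h2 k n => exact key k n y hxy
  | h1 z =>
    induction y using XX.cases with
    | h2 k n =>
      obtain ⟨u, v, hu, hv, h1, h2, h3⟩ := key k n (pt z) (fun h => hxy h.symm)
      exact ⟨v, u, hv, hu, h2, h1, h3.symm⟩
    | h1 w =>
      have hzw : z ≠ w := fun h => hxy (by rw [h])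
      obtain ⟨u, v, hu, hv, h1, h2, h3⟩ := t2_separation hzw
      exact ⟨proj ⁻¹' u, proj ⁻¹' v, hu.preimage continuous_proj, hv.preimage continuous_proj,
        h1, h2, h3.preimage _⟩

theorem paracompact [T2Space L] [CompactSpace L] : ParacompactSpace (XX L S) := by
  classical
  refine ⟨fun α s hs hcov => ?_⟩
  have hex : ∀ z : L, ∃ a, (pt z : XX L S) ∈ s a := by
    intro z
    have : (pt z : XX L S) ∈ ⋃ a, s a := by rw [hcov]; trivial
    exact mem_iUnion.1 this
  choose a ha using hex
  let G : L → Set L := fun z => {w | pt w ∈ s (a z) ∧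
    (w ≠ z → ∀ (h : w ∈ S) (n : ℕ), iso ⟨w, h⟩ n ∈ s (a z))}
  have hG : ∀ z, G z ∈ 𝓝 z := fun z => hs (a z) z (ha z)
  obtain ⟨t, -, ht⟩ := isCompact_univ.elim_nhds_subcover G (fun z _ => hG z)
  have hex2 : ∀ x : XX L S, ∃ a, x ∈ s a := by
    intro x
    have : x ∈ ⋃ a, s a := by rw [hcov]; trivial
    exact mem_iUnion.1 this
  refine ⟨t ⊕ (S × ℕ), fun b => match b with
    | Sum.inl z => s (a z)
    | Sum.inr (k, n) => if (k : L) ∈ t then {iso k n} else ∅, ?_, ?_, ?_, ?_⟩
  · rintro (z | ⟨k, n⟩)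
    · exact hs _
    · dsimp only
      split_ifs
      · exact isOpen_iso k n
      · exact isOpen_empty
  · rw [eq_univ_iff_forall]
    intro x
    induction x using XX.cases with
    | h1 w =>
      obtain ⟨z, hz, hw⟩ := mem_iUnion₂.1 (ht (mem_univ w))
      exact mem_iUnion.2 ⟨Sum.inl ⟨z, hz⟩, hw.1⟩
    | h2 k n =>
      obtain ⟨z, hz, hw⟩ := mem_iUnion₂.1 (ht (mem_univ (k : L)))
      by_cases hk : (k : L) ∈ t
      · refine mem_iUnion.2 ⟨Sum.inr (k, n), ?_⟩
        dsimp only
        rw [if_pos hk]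
        rfl
      · refine mem_iUnion.2 ⟨Sum.inl ⟨z, hz⟩, ?_⟩
        exact hw.2 (fun h => hk (h ▸ hz)) k.2 n
  · intro x
    have hfin : ∀ P : (S × ℕ) → Prop, {b : t ⊕ (S × ℕ) | ∃ z, b = Sum.inl z}.Finite := by
      intro P
      have : {b : t ⊕ (S × ℕ) | ∃ z, b = Sum.inl z} = range Sum.inl := by
        ext b; simp [eq_comm]
      rw [this]
      exact finite_range _
    induction x using XX.cases with
    | h1 w =>
      refine ⟨{x | (∃ k n, x = iso k n ∧ (k : L) ∈ t)}ᶜ, ?_, ?_⟩
      · refine IsOpen.mem_nhds ?_ ?_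
        · refine (isClosed_of_finite (t := (t : Set L)) ?_ t.finite_toSet ?_).isOpen_compl
          · rintro z ⟨k, n, h, -⟩
            exact pt_ne_iso h
          · rintro x ⟨k, n, rfl, h⟩
            exact h
        · rintro ⟨k, n, h, -⟩
          exact pt_ne_iso h
      · refine (hfin (fun _ => True)).subset ?_
        rintro (z | ⟨k, n⟩) hb
        · exact ⟨z, rfl⟩
        · exfalso
          obtain ⟨y, hy, hy2⟩ := hb
          dsimp only at hy
          split_ifs at hy with hk
          · exact hy2 ⟨k, n, hy, hk⟩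
          · exact hy
    | h2 k n =>
      refine ⟨{iso k n}, (isOpen_iso k n).mem_nhds rfl, ?_⟩
      refine ((hfin (fun _ => True)).union (finite_singleton (Sum.inr (k, n)))).subset ?_
      rintro (z | ⟨k', n'⟩) hb
      · exact Or.inl ⟨z, rfl⟩
      · right
        obtain ⟨y, hy, hy2⟩ := hb
        dsimp only at hy
        split_ifs at hy with hk
        · have h1 : y = iso k' n' := hy
          have h2 : y = iso k n := hy2
          rw [h1, iso_inj] at h2
          simp [h2.1, h2.2]
        · exact absurd hy (notMem_empty _)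
  · rintro (z | ⟨k, n⟩)
    · exact ⟨a z, subset_rfl⟩
    · dsimp only
      split_ifs
      · obtain ⟨c, hc⟩ := hex2 (iso k n)
        exact ⟨c, by simpa using hc⟩
      · obtain ⟨c, -⟩ := hex2 (iso k n)
        exact ⟨c, empty_subset _⟩

/-- Countable character of `pt '' K`. -/
theorem countablyGenerated [T2Space L] {K : Set L} (hK : IsCompact K)
    (hKg : (𝓝ˢ K).IsCountablyGenerated) (hKS : (K ∩ S).Countable) :
    (𝓝ˢ (pt '' K : Set (XX L S))).IsCountablyGenerated := by
  have key : 𝓝ˢ (pt '' K : Set (XX L S)) =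
      comap proj (𝓝ˢ K) ⊓ ⨅ e : (K ∩ S : Set L), 𝓟 {x : XX L S | ∀ n, x ≠ iso ⟨(e : L), e.2.2⟩ n} := by
    apply le_antisymm
    · refine le_inf ?_ (le_iInf fun e => ?_)
      · rw [← tendsto_iff_comap]
        refine continuous_proj.tendsto_nhdsSet ?_
        rintro _ ⟨z, hz, rfl⟩
        exact hz
      · rw [le_principal_iff]
        refine IsOpen.mem_nhdsSet ?_ |>.2 ?_
        · have : {x : XX L S | ∀ n, x ≠ iso ⟨(e : L), e.2.2⟩ n} =
            {x : XX L S | ∃ n, x = iso ⟨(e : L), e.2.2⟩ n}ᶜ := by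
            ext x; simp
          rw [this, isOpen_compl_iff]
          refine isClosed_of_finite (t := {(e : L)}) ?_ (finite_singleton _) ?_
          · rintro z ⟨n, h⟩
            exact pt_ne_iso h
          · rintro x ⟨n, rfl⟩
            rfl
        · rintro _ ⟨z, hz, rfl⟩ n
          exact pt_ne_iso
    · intro U hU
      obtain ⟨V, hV, hKV, hVU⟩ := mem_nhdsSet_iff_exists.1 hU
      let G : L → Set L := fun z => {w | pt w ∈ V ∧
        (w ≠ z → ∀ (h : w ∈ S) (n : ℕ), iso ⟨w, h⟩ n ∈ V)}
      have hG : ∀ z ∈ K, G z ∈ 𝓝 z := fun z hz => hV z (hKV ⟨z, hz, rfl⟩)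
      obtain ⟨t, htK, ht⟩ := hK.elim_nhds_subcover_nhdsSet hG
      have h2 : (⋂ e ∈ {e : (K ∩ S : Set L) | (e : L) ∈ t},
          {x : XX L S | ∀ n, x ≠ iso ⟨(e : L), e.2.2⟩ n}) ∈
          ⨅ e : (K ∩ S : Set L), 𝓟 {x : XX L S | ∀ n, x ≠ iso ⟨(e : L), e.2.2⟩ n} := by
        refine (biInter_mem ?_).2 ?_
        · exact Set.Finite.preimage Subtype.val_injective.injOn t.finite_toSet
        · intro e _
          exact mem_iInf_of_mem e (mem_principal_self _)
      refine mem_of_superset (inter_mem_inf (preimage_mem_comap ht) h2) ?_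
      rintro x ⟨hx1, hx2⟩
      apply hVU
      obtain ⟨z, hz, hw⟩ := mem_iUnion₂.1 (show proj x ∈ _ from hx1)
      induction x using XX.cases with
      | h1 w => exact hw.1
      | h2 k n =>
        by_cases hk : (k : L) = z
        · exfalso
          have hkK : (k : L) ∈ K := hk ▸ htK z hz
          have := mem_iInter₂.1 hx2 ⟨k, hkK, k.2⟩ (by rw [mem_ofPred_eq]; rw [hk]; exact hz) n
          exact this rfl
        · exact hw.2 hk k.2 n
  rw [key]
  have := hKg
  have : Countable (K ∩ S : Set L) := hKS.to_subtype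
  infer_instance

/-- The fibres of a perfect map from `XX L S` onto a first countable space
contain only countably many points of `S`. -/
theorem fibre_countable [T2Space L] [CompactSpace L] {Y : Type} [TopologicalSpace Y] [T1Space Y]
    [FirstCountableTopology Y] {f : XX L S → Y} (hf : Continuous f)
    (hfib : ∀ y : Y, IsCompact (f ⁻¹' {y})) (y : Y) :
    {k : L | k ∈ S ∧ f (pt k) = y}.Countable := by
  obtain ⟨V, hV⟩ := (𝓝 y).exists_antitone_basis
  -- each `{k} × ℕ` leaves the fibre
  have h1 : ∀ k : S, ∃ n, f (iso k n) ≠ y := by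
    intro k
    by_contra hcon
    push Not at hcon
    have hT : IsClosed (range (iso k : ℕ → XX L S)) := by
      refine isClosed_of_finite (t := {(k : L)}) ?_ (finite_singleton _) ?_
      · rintro z ⟨n, h⟩
        exact pt_ne_iso h.symm
      · rintro x ⟨n, rfl⟩
        rfl
    have hTc : IsCompact (range (iso k : ℕ → XX L S)) := by
      refine (hfib y).of_isClosed_subset hT ?_
      rintro _ ⟨n, rfl⟩
      exact hcon n
    obtain ⟨t, ht⟩ := hTc.elim_finite_subcover (fun n : ℕ => ({iso k n} : Set (XX L S)))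
      (fun n => isOpen_iso k n) (by
        rintro _ ⟨n, rfl⟩
        exact mem_iUnion.2 ⟨n, rfl⟩)
    obtain ⟨m, hm⟩ := Infinite.exists_notMem_finset t
    obtain ⟨n, hn, hmn⟩ := mem_iUnion₂.1 (ht ⟨m, rfl⟩)
    have : (iso k m : XX L S) = iso k n := hmn
    rw [iso_inj] at this
    exact hm (this.2 ▸ hn)
  choose N hN using h1
  have h2 : ∀ k : S, ∃ m, f (iso k (N k)) ∉ V m := by
    intro k
    have : ({f (iso k (N k))}ᶜ : Set Y) ∈ 𝓝 y := isOpen_compl_singleton.mem_nhds (hN k).symm
    obtain ⟨m, hm⟩ := hV.mem_iff.1 this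
    exact ⟨m, fun h => hm h rfl⟩
  choose M hM using h2
  have h3 : {k : L | k ∈ S ∧ f (pt k) = y} ⊆
      ⋃ m : ℕ, {k : L | ∃ h : k ∈ S, f (pt k) = y ∧ M ⟨k, h⟩ = m} := by
    rintro k ⟨hk, hk2⟩
    exact mem_iUnion.2 ⟨M ⟨k, hk⟩, hk, hk2, rfl⟩
  refine (countable_iUnion fun m => ?_).mono h3
  apply Set.Finite.countable
  by_contra hinf
  obtain ⟨w, hw⟩ := Set.Infinite.exists_accPt_principal (s := {k : L | ∃ h : k ∈ S, f (pt k) = y ∧ M ⟨k, h⟩ = m}) hinf
  have hclosed : IsClosed {k : L | f (pt k) = y} :=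
    isClosed_singleton.preimage (hf.comp continuous_pt)
  have hwy : f (pt w) = y := by
    have : w ∈ {k : L | f (pt k) = y} := by
      rw [isClosed_iff_accPt] at hclosed
      apply hclosed
      refine hw.mono ?_
      rw [principal_mono]
      rintro k ⟨_, h, _⟩
      exact h
    exact this
  have hVm : interior (V m) ∈ 𝓝 (f (pt w)) := by
    rw [hwy]
    exact interior_mem_nhds.2 (hV.mem m)
  have hopen : IsOpen (f ⁻¹' (interior (V m))) := isOpen_interior.preimage hf
  have hev := isOpen_iff'.1 hopen w (show f (pt w) ∈ interior (V m) from mem_of_mem_nhds hVm)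
  rw [accPt_iff_frequently] at hw
  obtain ⟨k, ⟨hkw, hkS, -, hkM⟩, -, hk2⟩ := (hw.and_eventually hev).exists
  have := hk2 hkw hkS (N ⟨k, hkS⟩)
  apply hM ⟨k, hkS⟩
  rw [hkM]
  exact interior_subset this

/-- A perfect image of a Hausdorff space is Hausdorff. -/
theorem t2_image {X Y : Type} [TopologicalSpace X] [TopologicalSpace Y] [T2Space X] {f : X → Y}
    (hc : IsClosedMap f) (hs : Function.Surjective f)
    (hfib : ∀ y : Y, IsCompact (f ⁻¹' {y})) : T2Space Y := by
  rw [t2Space_iff_disjoint_nhds]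
  intro y y' hyy
  rw [← Filter.disjoint_comap_iff hs]
  refine Disjoint.mono hc.comap_nhds_le hc.comap_nhds_le ?_
  refine (SeparatedNhds.of_isCompact_isCompact (hfib y) (hfib y') ?_).disjoint_nhdsSet
  exact Disjoint.preimage f (by simpa using hyy)

/-! ### Continuous maps on `2^I` depend on countably many coordinates -/

section depend

variable {I : Type} {Y : Type} [TopologicalSpace Y] [T2Space Y] [FirstCountableTopology Y]

theorem step_B (g : (I → Bool) → Y) (hg : Continuous g) (z : I → Bool) :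
    ∃ C : Set I, C.Countable ∧ ∀ w, (∀ c ∈ C, w c = z c) → g w = g z := by
  obtain ⟨V, hV⟩ := (𝓝 (g z)).exists_antitone_basis
  have h1 : ∀ n, ∃ F : Finset I, ∀ w : I → Bool, (∀ c ∈ F, w c = z c) → g w ∈ V n := by
    intro n
    have := hg.continuousAt.preimage_mem_nhds (hV.mem n)
    rw [nhds_pi, Filter.mem_pi'] at this
    obtain ⟨F, t, ht, hts⟩ := this
    refine ⟨F, fun w hw => hts ?_⟩
    intro c hc
    rw [hw c hc]
    exact mem_of_mem_nhds (ht c)
  choose F hF using h1
  refine ⟨⋃ n, (F n : Set I), countable_iUnion fun n => (F n).countable_toSet, fun w hw => ?_⟩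
  by_contra hne
  have : ({g w}ᶜ : Set Y) ∈ 𝓝 (g z) := isOpen_compl_singleton.mem_nhds (fun h => hne h.symm)
  obtain ⟨n, hn⟩ := hV.mem_iff.1 this
  exact hn (hF n w fun c hc => hw c (mem_iUnion.2 ⟨n, hc⟩)) rfl

omit [TopologicalSpace Y] [T2Space Y] [FirstCountableTopology Y] in
theorem countable_finsets {A : Set I} (hA : A.Countable) :
    {s : Finset I | (s : Set I) ⊆ A}.Countable := by
  classical
  have := hA.to_subtype
  refine (countable_range (fun t : Finset A => t.map (Function.Embedding.subtype _))).mono ?_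
  intro s hs
  refine ⟨s.subtype (· ∈ A), ?_⟩
  ext i
  simp only [Finset.mem_map, Finset.mem_subtype, Function.Embedding.coe_subtype, Subtype.exists]
  constructor
  · rintro ⟨a, ha, h, rfl⟩
    exact h
  · intro h
    exact ⟨i, hs h, h, rfl⟩

theorem depends (g : (I → Bool) → Y) (hg : Continuous g) :
    ∃ C : Set I, C.Countable ∧ ∀ u w, (∀ c ∈ C, u c = w c) → g u = g w := by
  classical
  let χ : Finset I → I → Bool := fun s i => decide (i ∈ s)
  choose C hCc hC using fun s : Finset I => step_B g hg (χ s)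
  let D : ℕ → Set I := fun n => Nat.rec (∅ : Set I)
    (fun _ A => A ∪ ⋃ s ∈ {s : Finset I | (s : Set I) ⊆ A}, C s) n
  have hD0 : D 0 = ∅ := rfl
  have hDs : ∀ n, D (n + 1) = D n ∪ ⋃ s ∈ {s : Finset I | (s : Set I) ⊆ D n}, C s := fun n => rfl
  have hDc : ∀ n, (D n).Countable := by
    intro n
    induction n with
    | zero => rw [hD0]; exact countable_empty
    | succ n ih =>
      rw [hDs]
      refine ih.union (Countable.biUnion ?_ fun s _ => hCc s)
      exact countable_finsets ih
  have hmono : Monotone D := monotone_nat_of_le_succ fun n => by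
    rw [hDs]; exact subset_union_left
  let E : Set I := ⋃ n, D n
  have hE : ∀ s : Finset I, (s : Set I) ⊆ E → C s ⊆ E := by
    intro s hs
    have : ∃ n, (s : Set I) ⊆ D n := by
      have := hmono.directed_le
      exact this.exists_mem_subset_of_finset_subset_biUnion hs
    obtain ⟨n, hn⟩ := this
    intro c hc
    refine mem_iUnion.2 ⟨n + 1, ?_⟩
    rw [hDs]
    right
    exact mem_iUnion₂.2 ⟨s, hn, hc⟩
  have hEc : E.Countable := countable_iUnion hDc
  refine ⟨E, hEc, ?_⟩
  -- the restriction extended by zero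
  let r : (I → Bool) → (I → Bool) := fun u i => if i ∈ E then u i else false
  have main : ∀ u, g u = g (r u) := by
    intro u
    let s : Finset I → Finset I := fun F => F.filter fun i => i ∈ E ∧ u i = true
    have hs : ∀ F, (s F : Set I) ⊆ E := by
      intro F i hi
      have : i ∈ s F := hi
      rw [Finset.mem_filter] at this
      exact this.2.1
    let uu : Finset I → (I → Bool) := fun F i => if i ∈ E then χ (s F) i else u i
    have t1 : Tendsto uu atTop (𝓝 u) := by
      rw [tendsto_pi_nhds]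
      intro i
      refine tendsto_nhds_of_eventually_eq ?_
      filter_upwards [eventually_ge_atTop ({i} : Finset I)] with F hF
      have hiF : i ∈ F := hF (Finset.mem_singleton_self i)
      by_cases hi : i ∈ E
      · simp only [uu, if_pos hi, χ, s]
        cases hu : u i <;> simp [hiF, hi, hu]
      · simp [uu, hi]
    have t2 : Tendsto (fun F => χ (s F)) atTop (𝓝 (r u)) := by
      rw [tendsto_pi_nhds]
      intro i
      refine tendsto_nhds_of_eventually_eq ?_
      filter_upwards [eventually_ge_atTop ({i} : Finset I)] with F hF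
      have hiF : i ∈ F := hF (Finset.mem_singleton_self i)
      by_cases hi : i ∈ E
      · simp only [r, if_pos hi, χ, s]
        cases hu : u i <;> simp [hiF, hi, hu]
      · simp [r, χ, s, hi]
    have heq : ∀ F, g (uu F) = g (χ (s F)) := by
      intro F
      apply hC (s F)
      intro c hc
      have : c ∈ E := hE _ (hs F) hc
      simp [uu, this]
    have t1' := (hg.tendsto u).comp t1
    have t2' := (hg.tendsto (r u)).comp t2
    have : (g ∘ uu) = (g ∘ fun F => χ (s F)) := funext heq
    rw [this] at t1'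
    exact tendsto_nhds_unique t1' t2'
  intro u w huw
  rw [main u, main w]
  congr 1
  funext i
  by_cases hi : i ∈ E
  · simp [r, hi, huw i hi]
  · simp [r, hi]

end depend

end Pool.Agent.Helper55.BurkeX
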