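import Mathlib

set_option autoImplicit false

namespace Pool.Agent.Helper55.Flex

/-- atom structure on the diversity atoms, `C a b c` means `c ≤ a ; b`, `f` flexible -/
structure AS (T : Type) where
  cv : T → T
  C : T → T → T → Prop
  f : T
  cv_cv : ∀ a, cv (cv a) = a
  c1 : ∀ {a b c}, C a b c → C (cv b) (cv a) (cv c)
  c2 : ∀ {a b c}, C a b c → C c (cv b) a
  fl : ∀ a b, C a b f

namespace AS

variable {T : Type} (S : AS T)

theorem c3 {a b c : T} (h : S.C a b c) : S.C (S.cv a) c b := by
  have h1 := S.c1 (S.c2 (S.c1 h))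
  simpa only [S.cv_cv] using h1

theorem fl2 (a c : T) : S.C a S.f c := by
  have h := S.c3 (S.fl (S.cv a) c)
  simpa only [S.cv_cv] using h

theorem fl3 (b c : T) : S.C S.f b c := by
  have h := S.c2 (S.fl c (S.cv b))
  simpa only [S.cv_cv] using h

theorem gl (a b : T) : S.C a b (S.cv S.f) := by
  have h := S.c1 (S.fl (S.cv b) (S.cv a))
  simpa only [S.cv_cv] using h

theorem gl2 (a c : T) : S.C a (S.cv S.f) c := by
  have h := S.c3 (S.gl (S.cv a) c)
  simpa only [S.cv_cv] using h

theorem gl3 (b c : T) : S.C (S.cv S.f) b c := by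
  have h := S.c2 (S.gl c (S.cv b))
  simpa only [S.cv_cv] using h

end AS

section Core

variable {T : Type} [DecidableEq T] (S : AS T)

/-- basis indices -/
abbrev Ix (T : Type) := T × Fin 4

/-- states -/
abbrev Q (T : Type) := Ix T → ZMod 5

/-- basis vector -/
def ev (i : Ix T) : Q T := Pi.single i 1

theorem ev_self (i : Ix T) : ev i i = 1 := by simp [ev]

theorem ev_ne {i j : Ix T} (h : j ≠ i) : ev i j = 0 := by simp [ev, h]

theorem ev_inj {i j : Ix T} (h : ev i = ev j) : i = j := by
  by_contra hne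
  have h1 := congrFun h i
  rw [ev_self, ev_ne hne] at h1
  exact absurd h1 (by decide)

open Classical in
/-- label of a state -/
noncomputable def gh (q : Q T) : T := if h : ∃ i, q = ev i then h.choose.1 else S.f

theorem gh_ev (i : Ix T) : gh S (ev i) = i.1 := by
  have h : ∃ j, (ev i : Q T) = ev j := ⟨i, rfl⟩
  unfold gh
  rw [dif_pos h]
  rw [← ev_inj h.choose_spec]

theorem gh_not {q : Q T} (h : ∀ i, q ≠ ev i) : gh S q = S.f := by
  unfold gh
  rw [dif_neg]
  rintro ⟨i, hi⟩
  exact h i hi

/-- admissible steps in direction `a` -/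
def St (a : T) : Set (Q T) :=
  {s | s ≠ 0 ∧ ∀ i j : Ix T, i ≠ j → s = ev j - ev i → S.C a j.1 i.1}

theorem condA {a : T} {s : Q T} (hs : s ∈ St S a) (q : Q T) :
    S.C a (gh S (q + s)) (gh S q) := by
  by_cases h1 : ∃ i, q = ev i
  · obtain ⟨i, rfl⟩ := h1
    by_cases h2 : ∃ j, ev i + s = ev j
    · obtain ⟨j, hj⟩ := h2
      rw [hj, gh_ev, gh_ev]
      have hij : i ≠ j := by
        rintro rfl
        apply hs.1
        simpa using hj
      exact hs.2 i j hij (by rw [← hj]; abel)
    · push Not at h2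
      rw [gh_not S h2]
      exact S.fl2 _ _
  · push Not at h1
    rw [gh_not S h1]
    exact S.fl _ _

theorem condB (q : Q T) (a b : T) (h : S.C a b (gh S q)) :
    ∃ s ∈ St S a, gh S (q + s) = b := by
  by_cases h1 : ∃ i, q = ev i
  · obtain ⟨i, rfl⟩ := h1
    rw [gh_ev] at h
    obtain ⟨k, hk⟩ : ∃ k : Fin 4, ((b, k) : Ix T) ≠ i := by
      by_contra hcon
      push Not at hcon
      have h0 := hcon 0
      have h1 := hcon 1
      rw [← h1] at h0
      have := (Prod.mk.injEq _ _ _ _).mp h0
      exact absurd this.2 (by decide)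
    refine ⟨ev (b, k) - ev i, ⟨?_, ?_⟩, ?_⟩
    · intro h0
      exact hk (ev_inj (sub_eq_zero.mp h0))
    · intro i' j' hij he
      -- ev (b,k) - ev i = ev j' - ev i'
      have hj' : j' = (b, k) := by
        by_contra hne
        have h2 := congrFun he j'
        simp only [Pi.sub_apply, ev_self] at h2
        rw [ev_ne (Ne.symm hij), ev_ne hne] at h2
        by_cases hji : j' = i
        · rw [hji, ev_self] at h2
          exact absurd h2 (by decide)
        · rw [ev_ne hji] at h2
          exact absurd h2 (by decide)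
      subst hj'
      have : ev i' = ev i := by
        have h3 : (ev i' : Q T) = ev (b, k) - (ev (b, k) - ev i') := by abel
        rw [h3, ← he]; abel
      rw [ev_inj this]
      exact h
    · have : ev i + (ev (b, k) - ev i) = ev (b, k) := by abel
      rw [this, gh_ev]
  · push Not at h1
    -- find k with ev (b,k) - q not a difference of basis vectors
    obtain ⟨k, hk⟩ : ∃ k : Fin 4, ∀ i' j' : Ix T, i' ≠ j' → ev (b, k) - q ≠ ev j' - ev i' := by
      by_cases h2 : ∃ k : Fin 4, q (b, k) = 0
      · obtain ⟨k, hk⟩ := h2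
        refine ⟨k, fun i' j' hij he => ?_⟩
        have hj' : j' = (b, k) := by
          by_contra hne
          have h3 := congrFun he (b, k)
          simp only [Pi.sub_apply, ev_self, hk] at h3
          rw [ev_ne (Ne.symm hne)] at h3
          by_cases hji : (b, k) = i'
          · rw [hji, ev_self] at h3
            exact absurd h3 (by decide)
          · rw [ev_ne hji] at h3
            exact absurd h3 (by decide)
        subst hj'
        apply h1 i'
        have h3 : (ev i' : Q T) = ev (b, k) - (ev (b, k) - ev i') := by abel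
        rw [h3, ← he]; abel
      · push Not at h2
        refine ⟨0, fun i' j' hij he => ?_⟩
        have key : ∀ k : Fin 4, k ≠ 0 → ((b, k) : Ix T) = i' ∨ ((b, k) : Ix T) = j' := by
          intro k hk0
          by_contra hcon
          push Not at hcon
          have h3 := congrFun he (b, k)
          simp only [Pi.sub_apply] at h3
          rw [ev_ne hcon.1, ev_ne hcon.2, ev_ne (by
            intro h4
            exact hk0 ((Prod.mk.injEq _ _ _ _).mp h4).2)] at h3
          apply h2 k
          have : q (b, k) = -(0 - q (b, k)) := by ring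
          rw [this, h3]; ring
        have hne : ∀ k l : Fin 4, k ≠ l → ((b, k) : Ix T) ≠ (b, l) := by
          intro k l hkl h4
          exact hkl ((Prod.mk.injEq _ _ _ _).mp h4).2
        rcases key 1 (by decide) with h5 | h5 <;> rcases key 2 (by decide) with h6 | h6 <;>
          rcases key 3 (by decide) with h7 | h7
        · exact hne 1 2 (by decide) (h5.trans h6.symm)
        · exact hne 1 2 (by decide) (h5.trans h6.symm)
        · exact hne 1 3 (by decide) (h5.trans h7.symm)
        · exact hne 2 3 (by decide) (h6.trans h7.symm)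
        · exact hne 2 3 (by decide) (h6.trans h7.symm)
        · exact hne 1 3 (by decide) (h5.trans h7.symm)
        · exact hne 1 2 (by decide) (h5.trans h6.symm)
        · exact hne 1 2 (by decide) (h5.trans h6.symm)
    refine ⟨ev (b, k) - q, ⟨?_, ?_⟩, ?_⟩
    · intro h0
      exact h1 (b, k) (sub_eq_zero.mp h0).symm
    · intro i' j' hij he
      exact absurd he (hk i' j' hij)
    · have : q + (ev (b, k) - q) = ev (b, k) := by abel
      rw [this, gh_ev]

theorem diff_inj {i j i' j' : Ix T} (hij : i ≠ j) (hij' : i' ≠ j')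
    (he : (ev j - ev i : Q T) = ev j' - ev i') : i = i' ∧ j = j' := by
  have hj : j = j' := by
    by_contra hne
    have h2 := congrFun he j
    simp only [Pi.sub_apply, ev_self] at h2
    rw [ev_ne (Ne.symm hij), ev_ne hne] at h2
    by_cases hji : j = i'
    · rw [hji, ev_self] at h2
      exact absurd h2 (by decide)
    · rw [ev_ne hji] at h2
      exact absurd h2 (by decide)
  subst hj
  refine ⟨?_, rfl⟩
  apply ev_inj
  have h3 : (ev i : Q T) = ev j - (ev j - ev i) := by abel
  rw [h3, he]; abel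

variable [Fintype T]

theorem sum_ev (i : Ix T) : ∑ j, (ev i : Q T) j = 1 := by
  simp [ev]

theorem St_of_sum (a : T) {s : Q T} (hs : ∑ j, s j ≠ 0) : s ∈ St S a := by
  refine ⟨?_, ?_⟩
  · rintro rfl
    apply hs
    simp
  · intro i j _ he
    exfalso
    apply hs
    rw [he]
    simp only [Pi.sub_apply, Finset.sum_sub_distrib, sum_ev, sub_self]

theorem genpair (i0 : Ix T) (α β : ZMod 5) (hα : α ≠ 0) (hβ : β ≠ 0) (w : Q T) :
    ∃ s1 s2 : Q T, ∑ j, s1 j ≠ 0 ∧ ∑ j, s2 j ≠ 0 ∧ α • s1 + β • s2 = w := by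
  obtain ⟨β', hβ'⟩ : ∃ β' : ZMod 5, β * β' = 1 := by
    revert β
    decide
  obtain ⟨t, ht0, ht⟩ : ∃ t : ZMod 5, t ≠ 0 ∧ (∑ j, w j) - α * t ≠ 0 := by
    generalize (∑ j, w j) = W
    revert α
    revert W
    decide
  refine ⟨t • ev i0, β' • (w - α • (t • ev i0)), ?_, ?_, ?_⟩
  · simp only [Pi.smul_apply, ← Finset.smul_sum, sum_ev]
    simpa using ht0
  · simp only [Pi.smul_apply, Pi.sub_apply, ← Finset.smul_sum, Finset.sum_sub_distrib, sum_ev]
    intro h0
    apply ht
    have h1 : β * (β' * ((∑ j, w j) - α * t)) = 0 := by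
      have : β' * ((∑ j, w j) - α * t) = 0 := by simpa using h0
      rw [this, mul_zero]
    rwa [← mul_assoc, hβ', one_mul] at h1
  · rw [smul_smul β β', hβ', one_smul]
    abel

theorem half (a : T) {c : ZMod 5} (h0 : c ≠ 0) (h1 : c ≠ 1) (h2 : c ≠ -1) {i j : Ix T}
    (hij : i ≠ j) : ∃ s ∈ St S a, c • s = ev j - ev i := by
  obtain ⟨c', hc', hc1, hc2, hc0⟩ : ∃ c' : ZMod 5, c * c' = 1 ∧ c' ≠ 1 ∧ c' ≠ -1 ∧ c' ≠ 0 := by
    revert c
    decide
  refine ⟨c' • (ev j - ev i), ⟨?_, ?_⟩, ?_⟩
  · intro h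
    have h3 := congrFun h j
    simp only [Pi.smul_apply, Pi.sub_apply, ev_self, ev_ne (Ne.symm hij), Pi.zero_apply] at h3
    apply hc0
    simpa using h3
  · intro i' j' hij' he
    exfalso
    have h3 := congrFun he j'
    simp only [Pi.smul_apply, Pi.sub_apply, ev_self, ev_ne (Ne.symm hij')] at h3
    by_cases hj : j' = j
    · subst hj
      rw [ev_self, ev_ne (Ne.symm hij)] at h3
      apply hc1
      simpa using h3
    · rw [ev_ne hj] at h3
      by_cases hi : j' = i
      · subst hi
        rw [ev_self] at h3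
        apply hc2
        have : c' = -(c' • (0 - 1 : ZMod 5)) := by simp
        rw [this, h3]; simp
      · rw [ev_ne hi] at h3
        simp only [sub_self, smul_zero, sub_zero] at h3
        exact absurd h3 (by decide)
  · rw [smul_smul, hc', one_smul]

/-- directions -/
abbrev D (T : Type) := T × Q T × Fin 3

/-- the block -/
abbrev W (T : Type) := D T → ZMod 5

/-- unit step in direction `d` -/
def un (d : D T) : W T := Pi.single d 1

open Classical in
/-- the basic assignment of steps to directions -/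
noncomputable def base (d : D T) : Q T := if d.2.1 ∈ St S d.1 then d.2.1 else ev (S.f, 0)

theorem base_mem (d : D T) : base S d ∈ St S d.1 := by
  unfold base
  split_ifs with h
  · exact h
  · apply St_of_sum
    rw [sum_ev]
    decide

/-- valid assignments of steps to directions -/
def Valid (σ : D T → Q T) : Prop :=
  (∀ d, σ d ∈ St S d.1) ∧ ∀ a, ∀ s ∈ St S a, ∃ d, d.1 = a ∧ σ d = s

theorem valid_of {σ : D T → Q T} (d1 d2 : D T) (h1 : ∀ d, σ d ∈ St S d.1)
    (h2 : ∀ d, d ≠ d1 → d ≠ d2 → σ d = base S d) : Valid S σ := by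
  refine ⟨h1, fun a s hs => ?_⟩
  obtain ⟨k, hk1, hk2⟩ : ∃ k : Fin 3, ((a, s, k) : D T) ≠ d1 ∧ ((a, s, k) : D T) ≠ d2 := by
    by_contra hcon
    push Not at hcon
    have hne : ∀ k l : Fin 3, k ≠ l → ((a, s, k) : D T) ≠ (a, s, l) := by
      intro k l hkl h4
      exact hkl (by simpa using h4)
    have key : ∀ k : Fin 3, ((a, s, k) : D T) = d1 ∨ ((a, s, k) : D T) = d2 := by
      intro k
      by_cases h : ((a, s, k) : D T) = d1
      · exact Or.inl h
      · exact Or.inr (hcon k h)
    rcases key 0 with h5 | h5 <;> rcases key 1 with h6 | h6 <;>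
      rcases key 2 with h7 | h7
    · exact hne 0 1 (by decide) (h5.trans h6.symm)
    · exact hne 0 1 (by decide) (h5.trans h6.symm)
    · exact hne 0 2 (by decide) (h5.trans h7.symm)
    · exact hne 1 2 (by decide) (h6.trans h7.symm)
    · exact hne 1 2 (by decide) (h6.trans h7.symm)
    · exact hne 0 2 (by decide) (h5.trans h7.symm)
    · exact hne 0 1 (by decide) (h5.trans h6.symm)
    · exact hne 0 1 (by decide) (h5.trans h6.symm)
  refine ⟨(a, s, k), rfl, ?_⟩
  rw [h2 _ hk1 hk2]
  unfold base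
  rw [if_pos]
  exact hs

/-- the state reached at `x` -/
def stt (σ : D T → Q T) (x : W T) : Q T := ∑ d, x d • σ d

theorem stt_add (σ : D T → Q T) (x y : W T) : stt σ (x + y) = stt σ x + stt σ y := by
  simp only [stt, Pi.add_apply, add_smul, Finset.sum_add_distrib]

theorem stt_un (σ : D T → Q T) (d : D T) : stt σ (un d) = σ d := by
  unfold stt un
  rw [Finset.sum_eq_single d]
  · simp
  · intro b _ hb
    simp [hb]
  · intro h
    exact absurd (Finset.mem_univ d) h

/-- the labelings of the block -/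
def Lab : Set (W T → T) :=
  {g | ∃ σ, Valid S σ ∧ ∃ h : Q T, ∀ x, g x = gh S (stt σ x + h)}

theorem lab_one {g : W T → T} (hg : g ∈ Lab S) (x : W T) (d : D T) :
    S.C d.1 (g (x + un d)) (g x) := by
  obtain ⟨σ, hσ, h, hgx⟩ := hg
  rw [hgx, hgx, stt_add, stt_un]
  have : stt σ x + σ d + h = stt σ x + h + σ d := by abel
  rw [this]
  exact condA S (hσ.1 d) _

theorem lab_two {g : W T → T} (hg : g ∈ Lab S) (x : W T) (a b : T) (hab : S.C a b (g x)) :
    ∃ d : D T, d.1 = a ∧ g (x + un d) = b := by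
  obtain ⟨σ, hσ, h, hgx⟩ := hg
  rw [hgx] at hab
  obtain ⟨s, hs, hs2⟩ := condB S _ a b hab
  obtain ⟨d, hd, hds⟩ := hσ.2 a s hs
  refine ⟨d, hd, ?_⟩
  rw [hgx, stt_add, stt_un, hds]
  have : stt σ x + s + h = stt σ x + h + s := by abel
  rw [this]
  exact hs2

theorem lab_adj (x : W T) (d : D T) (a b : T) (hab : S.C d.1 b a) :
    ∃ g ∈ Lab S, g x = a ∧ g (x + un d) = b := by
  classical
  have hij : ((a, 0) : Ix T) ≠ (b, 1) := by
    intro h
    exact absurd ((Prod.mk.injEq _ _ _ _).mp h).2 (by decide)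
  have hs0 : (ev (b, 1) - ev (a, 0) : Q T) ∈ St S d.1 := by
    refine ⟨fun h0 => hij (ev_inj (sub_eq_zero.mp h0)).symm, fun i j hij' he => ?_⟩
    obtain ⟨h1, h2⟩ := diff_inj hij hij' he
    subst h1
    subst h2
    exact hab
  let σ : D T → Q T := Function.update (base S) d (ev (b, 1) - ev (a, 0))
  have hσ : Valid S σ := by
    apply valid_of S d d
    · intro d'
      by_cases hd : d' = d
      · subst hd
        simp only [σ, Function.update_self]
        exact hs0
      · simp only [σ, Function.update_of_ne hd]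
        exact base_mem S d'
    · intro d' hd _
      simp only [σ, Function.update_of_ne hd]
  refine ⟨fun y => gh S (stt σ y + (ev (a, 0) - stt σ x)), ⟨σ, hσ, _, fun _ => rfl⟩, ?_, ?_⟩
  · have : stt σ x + (ev (a, 0) - stt σ x) = ev (a, 0) := by abel
    simp only [this, gh_ev]
  · have h1 : σ d = ev (b, 1) - ev (a, 0) := by simp only [σ, Function.update_self]
    have : stt σ (x + un d) + (ev (a, 0) - stt σ x) = ev (b, 1) := by
      rw [stt_add, stt_un, h1]; abel
    simp only [this, gh_ev]

theorem lab_far (x y : W T) (hxy : x ≠ y) (h1 : ∀ d, y ≠ x + un d) (h2 : ∀ d, x ≠ y + un d)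
    (a b : T) : ∃ g ∈ Lab S, g x = a ∧ g y = b := by
  classical
  have hij : ((a, 0) : Ix T) ≠ (b, 1) := by
    intro h
    exact absurd ((Prod.mk.injEq _ _ _ _).mp h).2 (by decide)
  obtain ⟨σ, hσ, hv⟩ : ∃ σ, Valid S σ ∧ stt σ (y - x) = ev (b, 1) - ev (a, 0) := by
    have hv0 : ∃ d1, (y - x) d1 ≠ 0 := by
      by_contra hcon
      push Not at hcon
      apply hxy
      have : y - x = 0 := funext hcon
      exact (sub_eq_zero.mp this).symm
    obtain ⟨d1, hd1⟩ := hv0
    by_cases hd2 : ∃ d2, d2 ≠ d1 ∧ (y - x) d2 ≠ 0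
    · obtain ⟨d2, hne, hd2⟩ := hd2
      generalize y - x = v at hd1 hd2
      -- remaining sum
      obtain ⟨s1, s2, hs1, hs2, hs⟩ := genpair ((a, 0) : Ix T) (v d1) (v d2) hd1 hd2
        (ev (b, 1) - ev (a, 0) - ∑ d ∈ (Finset.univ.erase d1).erase d2, v d • base S d)
      let σ : D T → Q T := fun d => if d = d1 then s1 else if d = d2 then s2 else base S d
      have e1 : σ d1 = s1 := by simp [σ]
      have e2 : σ d2 = s2 := by simp [σ, hne]
      have e3 : ∀ d, d ≠ d1 → d ≠ d2 → σ d = base S d := by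
        intro d h3 h4
        simp [σ, h3, h4]
      refine ⟨σ, valid_of S d1 d2 ?_ e3, ?_⟩
      · intro d
        by_cases h3 : d = d1
        · subst h3
          rw [e1]
          exact St_of_sum S _ hs1
        · by_cases h4 : d = d2
          · subst h4
            rw [e2]
            exact St_of_sum S _ hs2
          · rw [e3 d h3 h4]
            exact base_mem S d
      · unfold stt
        rw [← Finset.add_sum_erase _ _ (Finset.mem_univ d1),
          ← Finset.add_sum_erase _ _ (Finset.mem_erase.2 ⟨hne, Finset.mem_univ d2⟩), e1, e2]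
        have e4 : ∑ d ∈ (Finset.univ.erase d1).erase d2, v d • σ d =
            ∑ d ∈ (Finset.univ.erase d1).erase d2, v d • base S d := by
          apply Finset.sum_congr rfl
          intro d hd
          rw [Finset.mem_erase, Finset.mem_erase] at hd
          rw [e3 d hd.2.1 hd.1]
        rw [e4, ← add_assoc, hs]
        abel
    · push Not at hd2
      have hvs : ∀ c, (y - x) d1 = c → y - x = c • un d1 := by
        intro c hc
        funext d
        by_cases h3 : d = d1
        · subst h3
          simp [un, hc]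
        · rw [hd2 d h3]
          simp [un, h3]
      have hc1 : (y - x) d1 ≠ 1 := by
        intro hc
        apply h1 d1
        have := hvs 1 hc
        rw [one_smul] at this
        rw [← this]; abel
      have hc2 : (y - x) d1 ≠ -1 := by
        intro hc
        apply h2 d1
        have := hvs (-1) hc
        have h5 : un d1 = -(y - x) := by rw [this]; simp
        rw [h5]; abel
      obtain ⟨s, hs, hs2⟩ := half S d1.1 hd1 hc1 hc2 hij
      let σ : D T → Q T := Function.update (base S) d1 s
      have hσ : Valid S σ := by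
        apply valid_of S d1 d1
        · intro d'
          by_cases hd : d' = d1
          · subst hd
            simp only [σ, Function.update_self]
            exact hs
          · simp only [σ, Function.update_of_ne hd]
            exact base_mem S d'
        · intro d' hd _
          simp only [σ, Function.update_of_ne hd]
      refine ⟨σ, hσ, ?_⟩
      unfold stt
      rw [Finset.sum_eq_single d1]
      · have e1 : σ d1 = s := by simp only [σ, Function.update_self]
        rw [e1, hs2]
      · intro d _ hd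
        rw [hd2 d hd, zero_smul]
      · intro h
        exact absurd (Finset.mem_univ d1) h
  refine ⟨fun z => gh S (stt σ z + (ev (a, 0) - stt σ x)), ⟨σ, hσ, _, fun _ => rfl⟩, ?_, ?_⟩
  · have : stt σ x + (ev (a, 0) - stt σ x) = ev (a, 0) := by abel
    simp only [this, gh_ev]
  · have h5 : stt σ y = stt σ x + stt σ (y - x) := by
      rw [← stt_add]; congr 1; abel
    have : stt σ y + (ev (a, 0) - stt σ x) = ev (b, 1) := by
      rw [h5, hv]; abel
    simp only [this, gh_ev]

end Core


section Matrix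

variable {K : Type} [Field K] [Fintype K] [DecidableEq K]

/-- the symmetric universal matrix -/
def lam (u v : K × K × K) : K :=
  (u.1 + v.2.2) * (v.1 + u.2.2) + (u.2.1 + u.2.2 * v.2.2 ^ 2) * (v.2.1 + v.2.2 * u.2.2 ^ 2)

theorem lam_symm (u v : K × K × K) : lam u v = lam v u := by
  unfold lam; ring

open Polynomial in
theorem exists_det (hK : 5 ≤ Fintype.card K) (s1 s2 p t1 t2 q : K) (hp : p ≠ 0)
    (hne : ¬ (s1 = t1 ∧ s2 = t2 ∧ p = q)) :
    ∃ r : K, r ≠ 0 ∧ (s1 + r) * (t2 + q * r ^ 2) - (s2 + p * r ^ 2) * (t1 + r) ≠ 0 := by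
  by_contra hcon
  push Not at hcon
  let P : K[X] := C (q - p) * X ^ 3 + C (q * s1 - p * t1) * X ^ 2 + C (t2 - s2) * X +
    C (s1 * t2 - s2 * t1)
  have hP : P = 0 := by
    apply Polynomial.eq_zero_of_natDegree_lt_card_of_eval_eq_zero' P
      ((Finset.univ : Finset K).erase 0)
    · intro r hr
      have hr0 : r ≠ 0 := (Finset.mem_erase.1 hr).1
      have := hcon r hr0
      simp only [P, eval_add, eval_mul, eval_C, eval_pow, eval_X]
      rw [← this]; ring
    · have h1 : P.natDegree ≤ 3 := by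
        simp only [P]
        compute_degree
      have h2 : ((Finset.univ : Finset K).erase 0).card = Fintype.card K - 1 := by
        rw [Finset.card_erase_of_mem (Finset.mem_univ _), Finset.card_univ]
      omega
  have h3 : P.coeff 3 = 0 := by rw [hP]; simp
  have h2 : P.coeff 2 = 0 := by rw [hP]; simp
  have h1 : P.coeff 1 = 0 := by rw [hP]; simp
  have h0 : P.coeff 0 = 0 := by rw [hP]; simp
  simp only [P, coeff_add, coeff_C_mul, coeff_X_pow, coeff_X, coeff_C] at h3 h2 h1 h0
  norm_num at h3 h2 h1 h0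
  have e1 : q = p := by linear_combination h3
  have e2 : t2 = s2 := by linear_combination h1
  subst e1
  subst e2
  apply hne
  refine ⟨?_, rfl, rfl⟩
  have : q * (s1 - t1) = 0 := by linear_combination h2
  rcases mul_eq_zero.1 this with h | h
  · exact absurd h hp
  · exact sub_eq_zero.1 h

theorem lam_row (hK : 5 ≤ Fintype.card K) (u w : K × K × K) (hu : u.2.2 ≠ 0) (hne : u ≠ w)
    (φ ψ : K) : ∃ v : K × K × K, v.2.2 ≠ 0 ∧ lam u v = φ ∧ lam w v = ψ := by
  obtain ⟨s1, s2, p⟩ := u
  obtain ⟨t1, t2, q⟩ := w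
  obtain ⟨r, hr, hdet⟩ := exists_det hK s1 s2 p t1 t2 q hu (by
    rintro ⟨rfl, rfl, rfl⟩
    exact hne rfl)
  set A := s1 + r with hA
  set B := s2 + p * r ^ 2 with hB
  set A' := t1 + r with hA'
  set B' := t2 + q * r ^ 2 with hB'
  set φ1 := φ - A * p - B * (r * p ^ 2) with hφ1
  set ψ1 := ψ - A' * q - B' * (r * q ^ 2) with hψ1
  have hd : A * B' - B * A' ≠ 0 := hdet
  refine ⟨((φ1 * B' - ψ1 * B) / (A * B' - B * A'), (A * ψ1 - A' * φ1) / (A * B' - B * A'), r),
    hr, ?_, ?_⟩
  · have e : A * ((φ1 * B' - ψ1 * B) / (A * B' - B * A')) +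
        B * ((A * ψ1 - A' * φ1) / (A * B' - B * A')) = φ1 := by
      rw [mul_div_assoc', mul_div_assoc', ← add_div, div_eq_iff hd]
      ring
    simp only [lam]
    rw [← hA, ← hB]
    linear_combination e
  · have e : A' * ((φ1 * B' - ψ1 * B) / (A * B' - B * A')) +
        B' * ((A * ψ1 - A' * φ1) / (A * B' - B * A')) = ψ1 := by
      rw [mul_div_assoc', mul_div_assoc', ← add_div, div_eq_iff hd]
      ring
    simp only [lam]
    rw [← hA', ← hB']
    linear_combination e

end Matrix

/-- a symmetric matrix with entries in `F` in which any two rows realise all pairs -/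
theorem exists_matrix (F : Type) [Finite F] [Nonempty F] :
    ∃ (X : Type) (_ : Fintype X) (L : X → X → F), (∀ u v, L u v = L v u) ∧
      (∃ u v : X, u ≠ v) ∧
      ∀ u w, u ≠ w → ∀ φ ψ : F, ∃ v, L u v = φ ∧ L w v = ψ := by
  classical
  haveI := Fintype.ofFinite F
  obtain ⟨p, hp, hprime⟩ := Nat.exists_infinite_primes (max 5 (Fintype.card F))
  haveI : Fact p.Prime := ⟨hprime⟩
  have hcard : Fintype.card (ZMod p) = p := ZMod.card p
  have h5 : 5 ≤ p := le_trans (le_max_left _ _) hp
  obtain ⟨em⟩ : Nonempty (F ↪ ZMod p) := by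
    apply Function.Embedding.nonempty_of_card_le
    rw [hcard]
    exact le_trans (le_max_right _ _) hp
  let θ : ZMod p → F := Function.invFun em
  have hθ : Function.Surjective θ := Function.invFun_surjective em.injective
  refine ⟨{t : ZMod p × ZMod p × ZMod p // t.2.2 ≠ 0}, inferInstance,
    fun u v => θ (lam u.1 v.1), fun u v => by simp only [lam_symm u.1 v.1], ?_, ?_⟩
  · refine ⟨⟨(0, 0, 1), by simp⟩, ⟨(1, 0, 1), by simp⟩, ?_⟩
    intro h
    have := congrArg (fun t : {t : ZMod p × ZMod p × ZMod p // t.2.2 ≠ 0} => t.1.1) h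
    simp at this
  · intro u w huw φ ψ
    obtain ⟨a, ha⟩ := hθ φ
    obtain ⟨b, hb⟩ := hθ ψ
    obtain ⟨v, hv, h1, h2⟩ := lam_row (K := ZMod p) (by rw [hcard]; exact h5) u.1 w.1 u.2
      (fun h => huw (Subtype.ext h)) a b
    refine ⟨⟨v, hv⟩, ?_, ?_⟩
    · simp only [h1, ha]
    · simp only [h2, hb]


section Glue

variable {T : Type} [DecidableEq T] [Fintype T] (S : AS T)

theorem un_self (d : D T) : un d d = 1 := by simp [un]

theorem un_ne {d e : D T} (h : e ≠ d) : un d e = 0 := by simp [un, h]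

theorem un_inj {d e : D T} (h : un d = un e) : d = e := by
  by_contra hne
  have h1 := congrFun h d
  rw [un_self, un_ne hne] at h1
  exact absurd h1 (by decide)

theorem un_ne_zero (d : D T) : un d ≠ 0 := by
  intro h
  have h1 := congrFun h d
  rw [un_self, Pi.zero_apply] at h1
  exact absurd h1 (by decide)

theorem tri (d1 d2 d3 : D T) (e1 e2 e3 : ZMod 5) (h1 : e1 = 1 ∨ e1 = -1) (h2 : e2 = 1 ∨ e2 = -1)
    (h3 : e3 = 1 ∨ e3 = -1) (h : e1 • un d1 + e2 • un d2 = e3 • un d3) : False := by
  have n1 : e1 ≠ 0 := by rcases h1 with rfl | rfl <;> decide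
  have n2 : e2 ≠ 0 := by rcases h2 with rfl | rfl <;> decide
  have n3 : e3 ≠ 0 := by rcases h3 with rfl | rfl <;> decide
  by_cases h12 : d1 = d2
  · subst h12
    by_cases h13 : d3 = d1
    · subst h13
      have := congrFun h d3
      simp only [Pi.add_apply, Pi.smul_apply, un_self, smul_eq_mul, mul_one] at this
      rcases h1 with rfl | rfl <;> rcases h2 with rfl | rfl <;> rcases h3 with rfl | rfl <;>
        exact absurd this (by decide)
    · have := congrFun h d3
      simp only [Pi.add_apply, Pi.smul_apply, un_self, un_ne h13, smul_eq_mul, mul_one,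
        mul_zero, add_zero] at this
      exact n3 this.symm
  · by_cases h13 : d1 = d3
    · subst h13
      have := congrFun h d2
      simp only [Pi.add_apply, Pi.smul_apply, un_self, un_ne (Ne.symm h12), smul_eq_mul, mul_one,
        mul_zero, zero_add] at this
      exact n2 this
    · have := congrFun h d1
      simp only [Pi.add_apply, Pi.smul_apply, un_self, un_ne h12, un_ne h13, smul_eq_mul, mul_one,
        mul_zero, add_zero] at this
      exact n1 this

theorem lab_pt (x : W T) (a : T) : ∃ g ∈ Lab S, g x = a := by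
  obtain ⟨g, hg, h1, _⟩ := lab_adj S x (S.f, 0, 0) a S.f (S.fl3 _ _)
  exact ⟨g, hg, h1⟩

variable {X : Type} (L : X → X → {g : W T → T // g ∈ Lab S})

/-- forced colours -/
def PC : (X × W T) ⊕ X → (X × W T) ⊕ X → T → Prop
  | Sum.inl (s, x), Sum.inl (t, y), a =>
      s = t ∧ ∃ d, (y = x + un d ∧ a = d.1) ∨ (x = y + un d ∧ a = S.cv d.1)
  | Sum.inl (s, x), Sum.inr v, a => a = (L s v).1 x
  | Sum.inr v, Sum.inl (s, x), a => a = S.cv ((L s v).1 x)
  | Sum.inr _, Sum.inr _, _ => False

theorem PC_irr (x : (X × W T) ⊕ X) (a : T) : ¬ PC S L x x a := by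
  rcases x with ⟨s, x⟩ | v
  · rintro ⟨_, d, ⟨h, _⟩ | ⟨h, _⟩⟩
    · exact un_ne_zero d (by simpa using h.symm)
    · exact un_ne_zero d (by simpa using h.symm)
  · exact fun h => h

theorem PC_symm {x y : (X × W T) ⊕ X} {a : T} (h : PC S L x y a) : PC S L y x (S.cv a) := by
  rcases x with ⟨s, x⟩ | v <;> rcases y with ⟨t, y⟩ | w
  · obtain ⟨hs, d, ⟨h, ha⟩ | ⟨h, ha⟩⟩ := h
    · exact ⟨hs.symm, d, Or.inr ⟨h, by rw [ha]⟩⟩
    · exact ⟨hs.symm, d, Or.inl ⟨h, by rw [ha, S.cv_cv]⟩⟩
  · have h' : a = (L s w).1 x := h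
    show S.cv a = S.cv ((L s w).1 x)
    rw [h']
  · have h' : a = S.cv ((L t v).1 y) := h
    show S.cv a = (L t v).1 y
    rw [h', S.cv_cv]
  · exact h

theorem PC_fun {x y : (X × W T) ⊕ X} {a b : T} (h : PC S L x y a) (h' : PC S L x y b) :
    a = b := by
  rcases x with ⟨s, x⟩ | v <;> rcases y with ⟨t, y⟩ | w
  · obtain ⟨hs, d, ⟨h, ha⟩ | ⟨h, ha⟩⟩ := h <;> obtain ⟨hs', d', ⟨h', hb⟩ | ⟨h', hb⟩⟩ := h'
    · rw [h] at h'
      have := un_inj (add_left_cancel h')
      rw [ha, hb, this]
    · exfalso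
      rw [h] at h'
      have : un d + un d' = 0 := by
        have h2 : x + (un d + un d') = x := by rw [← add_assoc]; exact h'.symm
        simpa using h2
      have h3 := congrFun this d
      simp only [Pi.add_apply, un_self, Pi.zero_apply] at h3
      by_cases hd : d = d'
      · subst hd
        rw [un_self] at h3
        exact absurd h3 (by decide)
      · rw [un_ne hd] at h3
        exact absurd h3 (by decide)
    · exfalso
      rw [h] at h'
      have : un d + un d' = 0 := by
        have h2 : y + (un d + un d') = y := by rw [← add_assoc]; exact h'.symm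
        simpa using h2
      have h3 := congrFun this d
      simp only [Pi.add_apply, un_self, Pi.zero_apply] at h3
      by_cases hd : d = d'
      · subst hd
        rw [un_self] at h3
        exact absurd h3 (by decide)
      · rw [un_ne hd] at h3
        exact absurd h3 (by decide)
    · rw [h] at h'
      have := un_inj (add_left_cancel h')
      rw [ha, hb, this]
  · exact (show a = (L s w).1 x from h).trans (show b = (L s w).1 x from h').symm
  · exact (show a = S.cv ((L t v).1 y) from h).trans (show b = S.cv ((L t v).1 y) from h').symm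
  · exact absurd h (fun h => h)

/-- adjacency inside a block as a signed unit step -/
theorem adj_step {x y : W T} {a : T}
    (h : ∃ d, (y = x + un d ∧ a = d.1) ∨ (x = y + un d ∧ a = S.cv d.1)) :
    ∃ d : D T, ∃ e : ZMod 5, (e = 1 ∨ e = -1) ∧ y = x + e • un d := by
  obtain ⟨d, ⟨h, _⟩ | ⟨h, _⟩⟩ := h
  · exact ⟨d, 1, Or.inl rfl, by rw [one_smul]; exact h⟩
  · exact ⟨d, -1, Or.inr rfl, by rw [h, neg_one_smul]; abel⟩

theorem cross_ok {g : W T → T} (hg : g ∈ Lab S) {x z : W T} {a : T}
    (h : ∃ d, (z = x + un d ∧ a = d.1) ∨ (x = z + un d ∧ a = S.cv d.1)) :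
    S.C a (g z) (g x) := by
  obtain ⟨d, ⟨h, ha⟩ | ⟨h, ha⟩⟩ := h
  · rw [h, ha]
    exact lab_one S hg x d
  · rw [h, ha]
    exact S.c3 (lab_one S hg z d)

theorem PC_tri {x y z : (X × W T) ⊕ X} {a b c : T} (h1 : PC S L x z a) (h2 : PC S L z y b)
    (h3 : PC S L x y c) : S.C a b c := by
  rcases x with ⟨s, x⟩ | v <;> rcases y with ⟨t, y⟩ | w <;> rcases z with ⟨r, z⟩ | q
  · -- all in blocks
    exfalso
    obtain ⟨d1, e1, he1, g1⟩ := adj_step S h1.2
    obtain ⟨d2, e2, he2, g2⟩ := adj_step S h2.2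
    obtain ⟨d3, e3, he3, g3⟩ := adj_step S h3.2
    apply tri d1 d2 d3 e1 e2 e3 he1 he2 he3
    rw [g2, g1, add_assoc] at g3
    exact add_left_cancel g3
  · -- x, y in blocks, z = q
    have h1' : a = (L s q).1 x := h1
    have h2' : b = S.cv ((L t q).1 y) := h2
    obtain ⟨hs, h3'⟩ := h3
    subst hs
    have := cross_ok S (L s q).2 h3'
    -- C c (g y) (g x)
    rw [h1', h2']
    -- want C (g x) (cv (g y)) c
    exact S.c2 this
  · -- x = (s,x), y = w, z = (r,z)
    obtain ⟨hs, h1'⟩ := h1
    subst hs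
    have h2' : b = (L s w).1 z := h2
    have h3' : c = (L s w).1 x := h3
    rw [h2', h3']
    exact cross_ok S (L s w).2 h1'
  · exact absurd h2 (fun h => h)
  · -- x = v, y = (t,y), z = (r,z)
    obtain ⟨hs, h2'⟩ := h2
    subst hs
    have h1' : a = S.cv ((L r v).1 z) := h1
    have h3' : c = S.cv ((L r v).1 y) := h3
    rw [h1', h3']
    -- cross: z to y with b : C b (g y) (g z); want C (cv (g z)) b (cv (g y))
    have h4 := cross_ok S (L r v).2 h2'
    -- C b (g y) (g z)
    have h5 := S.c2 h4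
    -- C (g z) (cv (g y)) b
    exact S.c3 h5
  · exact absurd h1 (fun h => h)
  · exact absurd h3 (fun h => h)
  · exact absurd h1 (fun h => h)

open Classical in
/-- the full colouring, `none` on the diagonal -/
noncomputable def col (o : (X × W T) ⊕ X → ℕ) (x y : (X × W T) ⊕ X) : Option T :=
  if x = y then none else
    if h : ∃ a, PC S L x y a then some h.choose else
      if o x < o y then some S.f else some (S.cv S.f)

variable (o : (X × W T) ⊕ X → ℕ)

theorem col_self (x : (X × W T) ⊕ X) : col S L o x x = none := by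
  unfold col
  rw [if_pos rfl]

theorem col_of {x y : (X × W T) ⊕ X} {a : T} (h : PC S L x y a) : col S L o x y = some a := by
  have hne : x ≠ y := by
    rintro rfl
    exact PC_irr S L _ _ h
  have hex : ∃ a, PC S L x y a := ⟨a, h⟩
  unfold col
  rw [if_neg hne, dif_pos hex]
  rw [PC_fun S L hex.choose_spec h]

theorem col_cases {x y : (X × W T) ⊕ X} {a : T} (h : col S L o x y = some a) :
    PC S L x y a ∨ (¬ (∃ a, PC S L x y a) ∧ x ≠ y ∧
      ((o x < o y ∧ a = S.f) ∨ (¬ o x < o y ∧ a = S.cv S.f))) := by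
  by_cases hne : x = y
  · subst hne
    rw [col_self] at h
    exact absurd h (by simp)
  by_cases hex : ∃ a, PC S L x y a
  · left
    obtain ⟨b, hb⟩ := hex
    rw [col_of S L o hb] at h
    rw [← Option.some.inj h]
    exact hb
  · right
    refine ⟨hex, hne, ?_⟩
    unfold col at h
    rw [if_neg hne, dif_neg hex] at h
    split_ifs at h with ho
    · exact Or.inl ⟨ho, (Option.some.inj h).symm⟩
    · exact Or.inr ⟨ho, (Option.some.inj h).symm⟩

theorem col_none {x y : (X × W T) ⊕ X} : col S L o x y = none ↔ x = y := by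
  constructor
  · intro h
    by_contra hne
    unfold col at h
    rw [if_neg hne] at h
    split_ifs at h
  · rintro rfl
    exact col_self S L o x

theorem col_symm (ho : Function.Injective o) {x y : (X × W T) ⊕ X} {a : T}
    (h : col S L o x y = some a) : col S L o y x = some (S.cv a) := by
  rcases col_cases S L o h with h1 | ⟨hex, hne, h1⟩
  · exact col_of S L o (PC_symm S L h1)
  · have hex' : ¬ ∃ a, PC S L y x a := by
      rintro ⟨b, hb⟩
      exact hex ⟨_, PC_symm S L hb⟩
    have hone : o x ≠ o y := fun h => hne (ho h)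
    unfold col
    rw [if_neg (Ne.symm hne), dif_neg hex']
    rcases h1 with ⟨h2, rfl⟩ | ⟨h2, rfl⟩
    · rw [if_neg (by omega)]
    · rw [if_pos (by omega), S.cv_cv]

theorem col_tri {x y z : (X × W T) ⊕ X} {a b c : T} (h1 : col S L o x z = some a)
    (h2 : col S L o z y = some b) (h3 : col S L o x y = some c) : S.C a b c := by
  rcases col_cases S L o h1 with h1 | ⟨_, _, ⟨_, rfl⟩ | ⟨_, rfl⟩⟩
  · rcases col_cases S L o h2 with h2 | ⟨_, _, ⟨_, rfl⟩ | ⟨_, rfl⟩⟩
    · rcases col_cases S L o h3 with h3 | ⟨_, _, ⟨_, rfl⟩ | ⟨_, rfl⟩⟩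
      · exact PC_tri S L h1 h2 h3
      · exact S.fl _ _
      · exact S.gl _ _
    · exact S.fl2 _ _
    · exact S.gl2 _ _
  · exact S.fl3 _ _
  · exact S.gl3 _ _

theorem col_ext (hL : ∀ u v, L u v = L v u) (hX : ∃ u v : X, u ≠ v)
    (hrow : ∀ u w, u ≠ w → ∀ φ ψ : {g : W T → T // g ∈ Lab S}, ∃ v, L u v = φ ∧ L w v = ψ)
    {x y : (X × W T) ⊕ X} {a b c : T} (h : col S L o x y = some c) (hab : S.C a b c) :
    ∃ z, col S L o x z = some a ∧ col S L o z y = some b := by
  have row1 : ∀ u, ∀ φ : {g : W T → T // g ∈ Lab S}, ∃ v, L u v = φ := by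
    intro u φ
    obtain ⟨w, hw⟩ : ∃ w, u ≠ w := by
      obtain ⟨p, q, hpq⟩ := hX
      by_cases hu : u = p
      · exact ⟨q, by rw [hu]; exact hpq⟩
      · exact ⟨p, hu⟩
    obtain ⟨v, hv, _⟩ := hrow u w hw φ φ
    exact ⟨v, hv⟩
  suffices hs : ∃ z, PC S L x z a ∧ PC S L z y b by
    obtain ⟨z, hz1, hz2⟩ := hs
    exact ⟨z, col_of S L o hz1, col_of S L o hz2⟩
  have hne : x ≠ y := by
    rintro rfl
    rw [col_self] at h
    exact absurd h (by simp)
  rcases x with ⟨s, x⟩ | v <;> rcases y with ⟨t, y⟩ | w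
  · by_cases hst : s = t
    · subst hst
      have hxy : x ≠ y := fun h => hne (by rw [h])
      -- labelling with g x = a, g y = cv b
      obtain ⟨g, hg, hgx, hgy⟩ : ∃ g ∈ Lab S, g x = a ∧ g y = S.cv b := by
        by_cases h1 : ∃ d, y = x + un d
        · obtain ⟨d, hd⟩ := h1
          have hc : PC S L (Sum.inl (s, x)) (Sum.inl (s, y)) d.1 := ⟨rfl, d, Or.inl ⟨hd, rfl⟩⟩
          have hcd : c = d.1 := by
            have := col_of S L o hc
            rw [h] at this
            exact Option.some.inj this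
          subst hcd
          obtain ⟨g, hg, h2, h3⟩ := lab_adj S x d a (S.cv b) (S.c2 hab)
          exact ⟨g, hg, h2, by rw [hd]; exact h3⟩
        · by_cases h2 : ∃ d, x = y + un d
          · obtain ⟨d, hd⟩ := h2
            have hc : PC S L (Sum.inl (s, x)) (Sum.inl (s, y)) (S.cv d.1) :=
              ⟨rfl, d, Or.inr ⟨hd, rfl⟩⟩
            have hcd : c = S.cv d.1 := by
              have := col_of S L o hc
              rw [h] at this
              exact Option.some.inj this
            subst hcd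
            have h4 := S.c2 (S.c1 hab)
            simp only [S.cv_cv] at h4
            obtain ⟨g, hg, h2, h3⟩ := lab_adj S y d (S.cv b) a h4
            exact ⟨g, hg, by rw [hd]; exact h3, h2⟩
          · push Not at h1 h2
            exact lab_far S x y hxy h1 h2 a (S.cv b)
      obtain ⟨v, hv⟩ := row1 s ⟨g, hg⟩
      refine ⟨Sum.inr v, ?_, ?_⟩
      · show a = (L s v).1 x
        rw [hv]
        exact hgx.symm
      · show b = S.cv ((L s v).1 y)
        rw [hv]
        show b = S.cv (g y)
        rw [hgy, S.cv_cv]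
    · obtain ⟨g1, hg1, h1⟩ := lab_pt S x a
      obtain ⟨g2, hg2, h2⟩ := lab_pt S y (S.cv b)
      obtain ⟨v, hv1, hv2⟩ := hrow s t hst ⟨g1, hg1⟩ ⟨g2, hg2⟩
      refine ⟨Sum.inr v, ?_, ?_⟩
      · show a = (L s v).1 x
        rw [hv1]
        exact h1.symm
      · show b = S.cv ((L t v).1 y)
        rw [hv2]
        show b = S.cv (g2 y)
        rw [h2, S.cv_cv]
  · have hc : c = (L s w).1 x := by
      have h1 : PC S L (Sum.inl (s, x)) (Sum.inr w) ((L s w).1 x) := rfl
      have := col_of S L o h1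
      rw [h] at this
      exact Option.some.inj this
    rw [hc] at hab
    obtain ⟨d, hd, h2⟩ := lab_two S (L s w).2 x a b hab
    refine ⟨Sum.inl (s, x + un d), ⟨rfl, d, Or.inl ⟨rfl, hd.symm⟩⟩, ?_⟩
    exact h2.symm
  · have hc : c = S.cv ((L t v).1 y) := by
      have h1 : PC S L (Sum.inr v) (Sum.inl (t, y)) (S.cv ((L t v).1 y)) := rfl
      have := col_of S L o h1
      rw [h] at this
      exact Option.some.inj this
    rw [hc] at hab
    have hab' := S.c1 hab
    rw [S.cv_cv] at hab'
    obtain ⟨d, hd, h2⟩ := lab_two S (L t v).2 y (S.cv b) (S.cv a) hab'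
    refine ⟨Sum.inl (t, y + un d), ?_, ⟨rfl, d, Or.inr ⟨rfl, ?_⟩⟩⟩
    · show a = S.cv ((L t v).1 (y + un d))
      rw [h2, S.cv_cv]
    · rw [hd, S.cv_cv]
  · have hvw : v ≠ w := fun h => hne (by rw [h])
    obtain ⟨g1, hg1, h1⟩ := lab_pt S (0 : W T) (S.cv a)
    obtain ⟨g2, hg2, h2⟩ := lab_pt S (0 : W T) b
    obtain ⟨s, hs1, hs2⟩ := hrow v w hvw ⟨g1, hg1⟩ ⟨g2, hg2⟩
    refine ⟨Sum.inl (s, 0), ?_, ?_⟩
    · show a = S.cv ((L s v).1 0)
      rw [hL s v, hs1]
      show a = S.cv (g1 0)
      rw [h1, S.cv_cv]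
    · show b = (L s w).1 0
      rw [hL s w, hs2]
      exact h2.symm

theorem col_all (hL : ∀ u v, L u v = L v u) (hX : ∃ u v : X, u ≠ v)
    (hrow : ∀ u w, u ≠ w → ∀ φ ψ : {g : W T → T // g ∈ Lab S}, ∃ v, L u v = φ ∧ L w v = ψ)
    (x : (X × W T) ⊕ X) (a : T) : ∃ z, col S L o x z = some a := by
  have row1 : ∀ u, ∀ φ : {g : W T → T // g ∈ Lab S}, ∃ v, L u v = φ := by
    intro u φ
    obtain ⟨w, hw⟩ : ∃ w, u ≠ w := by
      obtain ⟨p, q, hpq⟩ := hX
      by_cases hu : u = p
      · exact ⟨q, by rw [hu]; exact hpq⟩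
      · exact ⟨p, hu⟩
    obtain ⟨v, hv, _⟩ := hrow u w hw φ φ
    exact ⟨v, hv⟩
  rcases x with ⟨s, x⟩ | v
  · refine ⟨Sum.inl (s, x + un (a, 0, 0)), col_of S L o ?_⟩
    exact ⟨rfl, _, Or.inl ⟨rfl, rfl⟩⟩
  · obtain ⟨g1, hg1, h1⟩ := lab_pt S (0 : W T) (S.cv a)
    obtain ⟨s, hs⟩ := row1 v ⟨g1, hg1⟩
    refine ⟨Sum.inl (s, 0), col_of S L o ?_⟩
    show a = S.cv ((L s v).1 0)
    rw [hL s v, hs]
    show a = S.cv (g1 0)
    rw [h1, S.cv_cv]

end Glue

/-- the combinatorial form of the theorem -/
theorem exists_colouring {T : Type} [Finite T] (S : AS T) :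
    ∃ (U : Type) (_ : Fintype U) (_ : Nonempty U) (k : U → U → Option T),
      (∀ x y, k x y = none ↔ x = y) ∧
      (∀ x y a, k x y = some a → k y x = some (S.cv a)) ∧
      (∀ x y z a b c, k x z = some a → k z y = some b → k x y = some c → S.C a b c) ∧
      (∀ x y a b c, k x y = some c → S.C a b c → ∃ z, k x z = some a ∧ k z y = some b) ∧
      (∀ x a, ∃ z, k x z = some a) := by
  classical
  haveI := Fintype.ofFinite T
  haveI : Nonempty {g : W T → T // g ∈ Lab S} := by
    obtain ⟨g, hg, _⟩ := lab_pt S (0 : W T) S.f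
    exact ⟨⟨g, hg⟩⟩
  obtain ⟨X, hXf, L, hL, hX, hrow⟩ := exists_matrix {g : W T → T // g ∈ Lab S}
  let o : (X × W T) ⊕ X → ℕ := fun x => (Fintype.equivFin _ x).val
  have ho : Function.Injective o := fun x y h =>
    (Fintype.equivFin _).injective (Fin.ext h)
  refine ⟨(X × W T) ⊕ X, inferInstance, ⟨Sum.inr hX.choose⟩, col S L o, ?_, ?_, ?_, ?_, ?_⟩
  · intro x y
    exact col_none S L o
  · intro x y a h
    exact col_symm S L o ho h
  · intro x y z a b c h1 h2 h3
    exact col_tri S L o h1 h2 h3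
  · intro x y a b c h hab
    exact col_ext S L o hL hX hrow h hab
  · intro x a
    exact col_all S L o hL hX hrow x a

end Pool.Agent.Helper55.Flex
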